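import Pool.Agent.Helper93.KS.St3

/-!
# Project KS, module OFS: sums of products of two different primitive characters
-/

set_option autoImplicit false

noncomputable section

namespace Pool.Agent.Helper9.KS

open Finset Filter Topology Pool.Agent.Helper93.KS
open Pool.Agent.Helper15.AB (StMT)
open Pool.Agent.Helper18.TR (StBonf StFLmain StLevel)
open Pool.Agent.Helper9.TW (gm Qs fm)
open Pool.Agent.Helper93.KP (gk vk tk rn gn TK qk StRTS)

/-! ### Abel summation -/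

private theorem abel (a : ℕ → ℂ) (X : ℕ) : ∀ Y : ℕ, X ≤ Y → ∑ k ∈ Ioc X Y, a k / k =
    (∑ k ∈ Ioc X Y, a k) / ((Y : ℂ) + 1) +
      ∑ k ∈ Ioc X Y, (∑ j ∈ Ioc X k, a j) * (1 / (k : ℂ) - 1 / ((k : ℂ) + 1)) := by
  intro Y hY
  induction Y, hY using Nat.le_induction with
  | base => simp
  | succ Y hY ih =>
    rw [Finset.sum_Ioc_succ_top hY, ih, Finset.sum_Ioc_succ_top hY (fun k => (∑ j ∈ Ioc X k, a j) *
      (1 / (k : ℂ) - 1 / ((k : ℂ) + 1))), Finset.sum_Ioc_succ_top hY a]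
    have h1 : ((Y : ℂ) + 1) ≠ 0 := by exact_mod_cast Nat.succ_ne_zero Y
    have h2 : ((Y : ℂ) + 1 + 1) ≠ 0 := by exact_mod_cast Nat.succ_ne_zero (Y + 1)
    push_cast
    field_simp
    ring

private theorem tele (X : ℕ) : ∀ Y : ℕ, X ≤ Y → ∑ k ∈ Ioc X Y, (1 / (k : ℝ) - 1 / ((k : ℝ) + 1)) =
    1 / ((X : ℝ) + 1) - 1 / ((Y : ℝ) + 1) := by
  intro Y hY
  induction Y, hY using Nat.le_induction with
  | base => simp
  | succ Y hY ih =>
    rw [Finset.sum_Ioc_succ_top hY, ih]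
    push_cast
    ring

private theorem abel_le (a : ℕ → ℂ) (X : ℕ) (B : ℝ) (hX : 1 ≤ X)
    (h : ∀ t : ℕ, X ≤ t → ‖∑ k ∈ Ioc X t, a k‖ ≤ B) (Y : ℕ) (hY : X ≤ Y) :
    ‖∑ k ∈ Ioc X Y, a k / k‖ ≤ B / X := by
  have hX0 : (0 : ℝ) < (X : ℝ) := by exact_mod_cast hX
  have hY0 : (0 : ℝ) < (Y : ℝ) + 1 := by positivity
  have hB : 0 ≤ B := le_trans (norm_nonneg _) (h X le_rfl)
  rw [abel a X Y hY]
  have h1 : ‖(∑ k ∈ Ioc X Y, a k) / ((Y : ℂ) + 1)‖ ≤ B / ((Y : ℝ) + 1) := by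
    rw [norm_div]
    have e : ‖((Y : ℂ) + 1)‖ = (Y : ℝ) + 1 := by
      have : ((Y : ℂ) + 1) = (((Y : ℝ) + 1 : ℝ) : ℂ) := by push_cast; rfl
      rw [this, Complex.norm_real, Real.norm_of_nonneg hY0.le]
    rw [e]
    exact div_le_div_of_nonneg_right (h Y hY) hY0.le
  have h2 : ‖∑ k ∈ Ioc X Y, (∑ j ∈ Ioc X k, a j) * (1 / (k : ℂ) - 1 / ((k : ℂ) + 1))‖ ≤
      ∑ k ∈ Ioc X Y, B * (1 / (k : ℝ) - 1 / ((k : ℝ) + 1)) := by
    refine (norm_sum_le _ _).trans (Finset.sum_le_sum ?_)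
    intro k hk
    have hk1 := (Finset.mem_Ioc.1 hk).1
    have hk0 : (0 : ℝ) < (k : ℝ) := by exact_mod_cast (by omega : 0 < k)
    have hpos : 0 ≤ 1 / (k : ℝ) - 1 / ((k : ℝ) + 1) := by
      rw [sub_nonneg]
      exact one_div_le_one_div_of_le hk0 (by linarith)
    rw [norm_mul]
    have e : ‖(1 / (k : ℂ) - 1 / ((k : ℂ) + 1))‖ = 1 / (k : ℝ) - 1 / ((k : ℝ) + 1) := by
      have : (1 / (k : ℂ) - 1 / ((k : ℂ) + 1)) = ((1 / (k : ℝ) - 1 / ((k : ℝ) + 1) : ℝ) : ℂ) := by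
        push_cast
        rfl
      rw [this, Complex.norm_real, Real.norm_of_nonneg hpos]
    rw [e]
    exact mul_le_mul_of_nonneg_right (h k hk1.le) hpos
  rw [← Finset.mul_sum, tele X Y hY] at h2
  calc _ ≤ _ := norm_add_le _ _
    _ ≤ B / ((Y : ℝ) + 1) + B * (1 / ((X : ℝ) + 1) - 1 / ((Y : ℝ) + 1)) := add_le_add h1 h2
    _ = B / ((X : ℝ) + 1) := by ring
    _ ≤ B / X := div_le_div_of_nonneg_left hB hX0 (by linarith)

/-! ### Partial sums of a nonprincipal character -/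

private theorem sum_zmod (M : ℕ) [NeZero M] (g : ZMod M → ℂ) :
    ∑ k ∈ range M, g (k : ZMod M) = ∑ a : ZMod M, g a := by
  refine Finset.sum_bij' (fun k _ => (k : ZMod M)) (fun a _ => a.val) ?_ ?_ ?_ ?_ ?_
  · intro k _
    exact Finset.mem_univ _
  · intro a _
    exact Finset.mem_range.2 (ZMod.val_lt a)
  · intro k hk
    exact ZMod.val_cast_of_lt (Finset.mem_range.1 hk)
  · intro a _
    exact ZMod.natCast_zmod_val a
  · intro k _
    rfl

private theorem per (M : ℕ) (F : ℕ → ℂ) (hper : ∀ k, F (M + k) = F k)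
    (h0 : ∑ k ∈ range M, F k = 0) (n : ℕ) : ∑ k ∈ range n, F k = ∑ k ∈ range (n % M), F k := by
  induction n using Nat.strong_induction_on with
  | _ n ih =>
    by_cases h : n < M
    · rw [Nat.mod_eq_of_lt h]
    · by_cases hM : M = 0
      · subst hM
        rw [Nat.mod_zero]
      · obtain ⟨m, rfl⟩ := Nat.exists_eq_add_of_le (not_lt.1 h)
        rw [Finset.sum_range_add, h0, zero_add, Nat.add_mod_left, Finset.sum_congr rfl
          (fun k _ => hper k)]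
        exact ih m (by omega)

private theorem diff_le (F : ℕ → ℂ) (hF : ∀ k, ‖F k‖ ≤ 1) (a b : ℕ) (hab : a ≤ b) :
    ‖∑ k ∈ range b, F k - ∑ k ∈ range a, F k‖ ≤ ((b - a : ℕ) : ℝ) := by
  rw [← Finset.sum_range_add_sum_Ico F hab, add_sub_cancel_left]
  refine (norm_sum_le _ _).trans ?_
  calc ∑ k ∈ Ico a b, ‖F k‖ ≤ ∑ _k ∈ Ico a b, (1 : ℝ) := Finset.sum_le_sum fun k _ => hF k
    _ = ((b - a : ℕ) : ℝ) := by
      rw [Finset.sum_const, Nat.card_Ico, nsmul_eq_mul, mul_one]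

private theorem char_sum (M : ℕ) [NeZero M] (χ : DirichletCharacter ℂ M) (hχ : χ ≠ 1) (X t : ℕ)
    (ht : X ≤ t) : ‖∑ k ∈ Ioc X t, χ (k : ZMod M)‖ ≤ (M : ℝ) := by
  have hM : 0 < M := Nat.pos_of_ne_zero (NeZero.ne M)
  have h0 : ∑ k ∈ range M, χ (k : ZMod M) = 0 := by
    rw [sum_zmod M (fun a => χ a)]
    exact MulChar.sum_eq_zero_of_ne_one hχ
  have hper : ∀ k : ℕ, χ ((M + k : ℕ) : ZMod M) = χ (k : ZMod M) := by
    intro k
    rw [Nat.cast_add, ZMod.natCast_self, zero_add]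
  have hF : ∀ k : ℕ, ‖χ (k : ZMod M)‖ ≤ 1 := fun k => DirichletCharacter.norm_le_one χ _
  have e1 : ∑ k ∈ Ioc X t, χ (k : ZMod M) =
      ∑ k ∈ range (t + 1), χ (k : ZMod M) - ∑ k ∈ range (X + 1), χ (k : ZMod M) := by
    rw [← Finset.sum_range_add_sum_Ico (fun k : ℕ => χ (k : ZMod M)) (by omega : X + 1 ≤ t + 1),
      add_sub_cancel_left]
    refine Finset.sum_congr ?_ fun _ _ => rfl
    ext k
    rw [Finset.mem_Ioc, Finset.mem_Ico]
    omega
  rw [e1, per M (fun k : ℕ => χ (k : ZMod M)) hper h0 (t + 1),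
    per M (fun k : ℕ => χ (k : ZMod M)) hper h0 (X + 1)]
  have b1 := Nat.mod_lt (t + 1) hM
  have b2 := Nat.mod_lt (X + 1) hM
  rcases le_total ((X + 1) % M) ((t + 1) % M) with h | h
  · refine (diff_le _ hF _ _ h).trans ?_
    exact_mod_cast (by omega : (t + 1) % M - (X + 1) % M ≤ M)
  · rw [← norm_neg, neg_sub]
    refine (diff_le _ hF _ _ h).trans ?_
    exact_mod_cast (by omega : (X + 1) % M - (t + 1) % M ≤ M)

/-! ### The product of the two characters -/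

private theorem val_of_coprime {n m : ℕ} (hm : n ∣ m) (ψ : DirichletCharacter ℂ n) (k : ℕ)
    (hk : Nat.Coprime k m) :
    (DirichletCharacter.changeLevel hm ψ) (k : ZMod m) = ψ (k : ZMod n) := by
  have h := DirichletCharacter.changeLevel_eq_cast_of_dvd' ψ hm (a := (k : ℤ))
    (Nat.isCoprime_iff_coprime.2 hk)
  rwa [Int.cast_natCast, Int.cast_natCast] at h

private theorem val_zero {n : ℕ} (ψ : DirichletCharacter ℂ n) (k : ℕ) (hk : ¬ Nat.Coprime k n) :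
    ψ (k : ZMod n) = 0 := by
  apply MulChar.map_nonunit
  rwa [ZMod.isUnit_iff_coprime]

theorem hOFS : StOFS := by
  intro f f' hf hf' ψ ψ' hψ hψ' hne X Y hX hY
  have hM : NeZero (f * f') := ⟨Nat.mul_ne_zero hf.out hf'.out⟩
  obtain ⟨χ, hχ⟩ : ∃ χ : DirichletCharacter ℂ (f * f'),
      χ = DirichletCharacter.changeLevel (dvd_mul_right f f') ψ *
        (DirichletCharacter.changeLevel (dvd_mul_left f' f) ψ')⁻¹ := ⟨_, rfl⟩
  have hval : ∀ k : ℕ, χ (k : ZMod (f * f')) =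
      ψ (k : ZMod f) * (starRingEnd ℂ) (ψ' (k : ZMod f')) := by
    intro k
    rw [hχ, MulChar.mul_apply, ← MulChar.star_apply']
    by_cases hk : Nat.Coprime k (f * f')
    · rw [val_of_coprime _ ψ k hk, val_of_coprime _ ψ' k hk]
      rfl
    · rw [val_zero (DirichletCharacter.changeLevel (dvd_mul_right f f') ψ) k hk, zero_mul]
      rw [Nat.coprime_mul_iff_right, not_and_or] at hk
      rcases hk with h | h
      · rw [val_zero ψ k h, zero_mul]
      · rw [val_zero ψ' k h, map_zero, mul_zero]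
  have hχ1 : χ ≠ 1 := by
    intro h1
    rw [hχ, mul_inv_eq_one] at h1
    have c1 := DirichletCharacter.conductor_changeLevel ψ (dvd_mul_right f f')
    have c2 := DirichletCharacter.conductor_changeLevel ψ' (dvd_mul_left f' f)
    rw [h1, c2] at c1
    have hff : f' = f := by
      rw [DirichletCharacter.isPrimitive_def] at hψ hψ'
      rw [← hψ, ← c1, hψ']
    subst hff
    have h2 : ψ = ψ' := DirichletCharacter.changeLevel_injective (dvd_mul_right f' f') h1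
    obtain ⟨k, hk⟩ := hne
    apply hk
    rw [h2]
  have key := abel_le (fun k : ℕ => χ (k : ZMod (f * f'))) X ((f * f' : ℕ) : ℝ) hX
    (fun t ht => char_sum (f * f') χ hχ1 X t ht) Y hY
  have e : ∑ k ∈ Ioc X Y, ψ (k : ZMod f) * (starRingEnd ℂ) (ψ' (k : ZMod f')) / k =
      ∑ k ∈ Ioc X Y, χ (k : ZMod (f * f')) / k :=
    Finset.sum_congr rfl fun k _ => by rw [hval k]
  rw [e]
  rwa [Nat.cast_mul] at key

end Pool.Agent.Helper9.KS
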