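import Pool.Agent.Helper93.KS.St

/-!
# Project KS, module PSQ: numbers `k (n - k) - 1` with a square factor
-/

set_option autoImplicit false

noncomputable section

namespace Pool.Agent.Helper9.KS

open Finset Filter Topology Pool.Agent.Helper93.KS
open Pool.Agent.Helper15.AB (ee Kl StDB StMT)
open Pool.Agent.Helper9.TW (gm Qs fm StMER StC9)
open Pool.Agent.Helper18.TR (StLevel)
open Pool.Agent.Helper93.KP (gk vk tk rn gn TK qk StC8P StVLP StRTS StWEI dvd_vk)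

/-- A set of numbers in one class. -/
private theorem card_class (J M : ℕ) (T : Finset ℕ) (hT : T ⊆ Icc 1 J)
    (h : ∀ a ∈ T, ∀ b ∈ T, (M : ℤ) ∣ (a : ℤ) - b) : T.card ≤ J / M + 1 := by
  have h0 : T.card ≤ (range (J / M + 1)).card := by
    apply Finset.card_le_card_of_injOn (fun t => t / M)
    · intro t ht
      have h1 := Finset.mem_Icc.1 (hT ht)
      rw [Finset.coe_range, Set.mem_Iio]
      exact Nat.lt_succ_of_le (Nat.div_le_div_right h1.2)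
    · intro a ha b hb hab
      have h1 : (a : ℤ) ≡ b [ZMOD M] := Int.modEq_iff_dvd.2 (h b hb a ha)
      have h2 : a % M = b % M := Int.natCast_modEq_iff.1 h1
      have hab' : a / M = b / M := hab
      rw [← Nat.div_add_mod a M, ← Nat.div_add_mod b M, hab', h2]
  rwa [Finset.card_range] at h0

private theorem gk_eq (n j : ℕ) : gk n (30 * j) = 30 * (j : ℤ) * n - 900 * (j : ℤ) ^ 2 - 1 := by
  unfold gk
  push_cast
  ring

private theorem not_dvd_thirty {p n j : ℕ} (hp : p.Prime) (h : (p : ℤ) ∣ gk n (30 * j)) :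
    ¬ (p : ℤ) ∣ 30 := by
  intro h30
  rw [gk_eq] at h
  have h1 : (p : ℤ) ∣ 1 := by
    have h2 : (1 : ℤ) = 30 * ((j : ℤ) * n - 30 * (j : ℤ) ^ 2) -
        (30 * (j : ℤ) * n - 900 * (j : ℤ) ^ 2 - 1) := by ring
    rw [h2]
    exact dvd_sub (Dvd.dvd.mul_right h30 _) h
  exact (Nat.prime_iff_prime_int.1 hp).not_dvd_one h1

/-- two roots modulo the square -/
private theorem two_roots {p n r s : ℕ} (hp : p.Prime) (h30 : ¬ (p : ℤ) ∣ 30)
    (hn : ¬ (p : ℤ) ∣ (n : ℤ) ^ 2 - 4) (hr : ((p ^ 2 : ℕ) : ℤ) ∣ gk n (30 * r))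
    (hs : ((p ^ 2 : ℕ) : ℤ) ∣ gk n (30 * s)) :
    ((p ^ 2 : ℕ) : ℤ) ∣ (r : ℤ) - s ∨ ((p ^ 2 : ℕ) : ℤ) ∣ 30 * ((r : ℤ) + s) - n := by
  have hpi := Nat.prime_iff_prime_int.1 hp
  have hr1 := hr
  push_cast at hr hs ⊢
  rw [gk_eq] at hr hs
  have h1 : (p : ℤ) ^ 2 ∣ 30 * (((r : ℤ) - s) * (30 * ((r : ℤ) + s) - n)) := by
    have h2 : 30 * (((r : ℤ) - s) * (30 * ((r : ℤ) + s) - n)) =
        (30 * (s : ℤ) * n - 900 * (s : ℤ) ^ 2 - 1) - (30 * (r : ℤ) * n - 900 * (r : ℤ) ^ 2 - 1) := by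
      ring
    rw [h2]
    exact dvd_sub hs hr
  have hc30 : IsCoprime ((p : ℤ) ^ 2) 30 := (hpi.coprime_iff_not_dvd.2 h30).pow_left
  have h3 := hc30.dvd_of_dvd_mul_left h1
  by_cases ha : (p : ℤ) ∣ (r : ℤ) - s
  · by_cases hb : (p : ℤ) ∣ 30 * ((r : ℤ) + s) - n
    · exfalso
      apply hn
      have h4 : (p : ℤ) ∣ 60 * (r : ℤ) - n := by
        have h5 : 60 * (r : ℤ) - n = (30 * ((r : ℤ) + s) - n) + 30 * ((r : ℤ) - s) := by ring
        rw [h5]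
        exact dvd_add hb (Dvd.dvd.mul_left ha _)
      have h6 : (p : ℤ) ∣ 30 * (r : ℤ) * n - 900 * (r : ℤ) ^ 2 - 1 :=
        dvd_trans (dvd_pow_self _ two_ne_zero) hr
      have h7 : (n : ℤ) ^ 2 - 4 = (60 * (r : ℤ) - n) * (60 * (r : ℤ) - n) +
          4 * (30 * (r : ℤ) * n - 900 * (r : ℤ) ^ 2 - 1) := by ring
      rw [h7]
      exact dvd_add (Dvd.dvd.mul_left h4 _) (Dvd.dvd.mul_left h6 _)
    · left
      exact ((hpi.coprime_iff_not_dvd.2 hb).pow_left).dvd_of_dvd_mul_right h3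
  · right
    exact ((hpi.coprime_iff_not_dvd.2 ha).pow_left).dvd_of_dvd_mul_left h3

/-- the numbers with `p ^ 2 ∣ vk` -/
private def Sp (n p : ℕ) : Finset ℕ := (Icc 1 (n / 60)).filter (fun j => p ^ 2 ∣ vk n (30 * j))

private theorem mem_Sp {n p j : ℕ} (h : j ∈ Sp n p) :
    j ∈ Icc 1 (n / 60) ∧ ((p ^ 2 : ℕ) : ℤ) ∣ gk n (30 * j) := by
  unfold Sp at h
  obtain ⟨h1, h2⟩ := Finset.mem_filter.1 h
  refine ⟨h1, ?_⟩
  obtain ⟨h3, h4⟩ := Finset.mem_Icc.1 h1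
  exact (dvd_vk n (30 * j) (p ^ 2) (by omega) (by omega)).1 h2

private theorem card_one {n p : ℕ} (hp : p.Prime) (hn : ¬ (p : ℤ) ∣ (n : ℤ) ^ 2 - 4) :
    (Sp n p).card ≤ 2 * (n / 60 / p ^ 2 + 1) := by
  classical
  rcases (Sp n p).eq_empty_or_nonempty with h | ⟨r, hr⟩
  · rw [h, Finset.card_empty]
    exact Nat.zero_le _
  · obtain ⟨hr1, hr2⟩ := mem_Sp hr
    have hpp : (p : ℤ) ∣ ((p ^ 2 : ℕ) : ℤ) := by
      push_cast
      exact dvd_pow_self _ two_ne_zero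
    have h30 := not_dvd_thirty hp (dvd_trans hpp hr2)
    have hpi := Nat.prime_iff_prime_int.1 hp
    have hc30 : IsCoprime (((p ^ 2 : ℕ) : ℤ)) 30 := by
      push_cast
      exact (hpi.coprime_iff_not_dvd.2 h30).pow_left
    obtain ⟨A, hA⟩ : ∃ A : Finset ℕ, A = (Sp n p).filter
      (fun s : ℕ => ((p ^ 2 : ℕ) : ℤ) ∣ (r : ℤ) - s) := ⟨_, rfl⟩
    obtain ⟨B, hB⟩ : ∃ B : Finset ℕ, B = (Sp n p).filter
      (fun s : ℕ => ((p ^ 2 : ℕ) : ℤ) ∣ 30 * ((r : ℤ) + s) - n) := ⟨_, rfl⟩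
    have hsub : Sp n p ⊆ A ∪ B := by
      intro s hs
      obtain ⟨_, hs2⟩ := mem_Sp hs
      rw [Finset.mem_union, hA, hB, Finset.mem_filter, Finset.mem_filter]
      rcases two_roots hp h30 hn hr2 hs2 with h | h
      · exact Or.inl ⟨hs, h⟩
      · exact Or.inr ⟨hs, h⟩
    have cA : A.card ≤ n / 60 / p ^ 2 + 1 := by
      refine card_class _ _ A ?_ ?_
      · intro s hs
        rw [hA] at hs
        exact (mem_Sp (Finset.mem_filter.1 hs).1).1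
      · intro a ha b hb
        rw [hA] at ha hb
        have h1 := (Finset.mem_filter.1 ha).2
        have h2 := (Finset.mem_filter.1 hb).2
        have h3 : (a : ℤ) - b = ((r : ℤ) - b) - ((r : ℤ) - a) := by ring
        rw [h3]
        exact dvd_sub h2 h1
    have cB : B.card ≤ n / 60 / p ^ 2 + 1 := by
      refine card_class _ _ B ?_ ?_
      · intro s hs
        rw [hB] at hs
        exact (mem_Sp (Finset.mem_filter.1 hs).1).1
      · intro a ha b hb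
        rw [hB] at ha hb
        have h1 := (Finset.mem_filter.1 ha).2
        have h2 := (Finset.mem_filter.1 hb).2
        have h4 : ((p ^ 2 : ℕ) : ℤ) ∣ 30 * ((a : ℤ) - b) := by
          have h3 : 30 * ((a : ℤ) - b) = (30 * ((r : ℤ) + a) - n) - (30 * ((r : ℤ) + b) - n) := by
            ring
          rw [h3]
          exact dvd_sub h1 h2
        exact hc30.dvd_of_dvd_mul_left h4
    calc (Sp n p).card ≤ (A ∪ B).card := Finset.card_le_card hsub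
      _ ≤ A.card + B.card := Finset.card_union_le _ _
      _ ≤ 2 * (n / 60 / p ^ 2 + 1) := by omega

private theorem card_two {n p : ℕ} (hp : p.Prime) (hn : (p : ℤ) ∣ (n : ℤ) ^ 2 - 4) :
    (Sp n p).card ≤ n / 60 / p + 1 := by
  refine card_class _ _ (Sp n p) ?_ ?_
  · intro s hs
    exact (mem_Sp hs).1
  · intro a ha b hb
    have hpi := Nat.prime_iff_prime_int.1 hp
    have hpp : (p : ℤ) ∣ ((p ^ 2 : ℕ) : ℤ) := by
      push_cast
      exact dvd_pow_self _ two_ne_zero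
    have hx : ∀ c ∈ Sp n p, (p : ℤ) ∣ 60 * (c : ℤ) - n := by
      intro c hc
      have h1 := dvd_trans hpp (mem_Sp hc).2
      rw [gk_eq] at h1
      have h2 : (p : ℤ) ∣ (60 * (c : ℤ) - n) ^ 2 := by
        have h3 : (60 * (c : ℤ) - n) ^ 2 = ((n : ℤ) ^ 2 - 4) -
            4 * (30 * (c : ℤ) * n - 900 * (c : ℤ) ^ 2 - 1) := by ring
        rw [h3]
        exact dvd_sub hn (Dvd.dvd.mul_left h1 _)
      exact hpi.dvd_of_dvd_pow h2
    have h30 := not_dvd_thirty hp (dvd_trans hpp (mem_Sp ha).2)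
    have h60 : ¬ (p : ℤ) ∣ 60 := by
      intro h
      have h' : (p : ℤ) ∣ 30 * 2 := by
        have e : (30 : ℤ) * 2 = 60 := by norm_num
        rw [e]
        exact h
      rcases hpi.dvd_or_dvd h' with h1 | h1
      · exact h30 h1
      · exact h30 (dvd_trans h1 (by norm_num))
    have h4 : (p : ℤ) ∣ 60 * ((a : ℤ) - b) := by
      have h5 : 60 * ((a : ℤ) - b) = (60 * (a : ℤ) - n) - (60 * (b : ℤ) - n) := by ring
      rw [h5]
      exact dvd_sub (hx a ha) (hx b hb)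
    exact (hpi.coprime_iff_not_dvd.2 h60).dvd_of_dvd_mul_left h4

/-- few large primes divide `n ^ 2 - 4` -/
private theorem few {n : ℕ} (hn : 60 ≤ n) (Q : Finset ℕ) (hQ : ∀ p ∈ Q, p.Prime ∧
    (n : ℝ) ^ (11 / 100 : ℝ) ≤ (p : ℝ) ∧ (p : ℤ) ∣ (n : ℤ) ^ 2 - 4) : (Q.card : ℝ) ≤ 19 := by
  have hn1 : (1 : ℝ) < (n : ℝ) := by
    have : 1 < n := by omega
    exact_mod_cast this
  have hn0 : (0 : ℝ) ≤ (n : ℝ) := by linarith
  have h4 : 4 ≤ n ^ 2 := by nlinarith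
  have hd : ∏ p ∈ Q, p ∣ n ^ 2 - 4 := by
    apply Finset.prod_primes_dvd
    · intro p hp
      exact (hQ p hp).1.prime
    · intro p hp
      have h := (hQ p hp).2.2
      have h5 : ((n ^ 2 - 4 : ℕ) : ℤ) = (n : ℤ) ^ 2 - 4 := by
        rw [Nat.cast_sub h4]
        push_cast
        ring
      rw [← h5] at h
      exact_mod_cast h
  have hle : ∏ p ∈ Q, p ≤ n ^ 2 := by
    refine le_trans (Nat.le_of_dvd ?_ hd) (Nat.sub_le _ _)
    have : 60 * 60 ≤ n * n := Nat.mul_le_mul hn hn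
    have h6 : n ^ 2 = n * n := by ring
    omega
  have h7 : ((n : ℝ) ^ (11 / 100 : ℝ)) ^ Q.card ≤ (n : ℝ) ^ (2 : ℝ) := by
    calc ((n : ℝ) ^ (11 / 100 : ℝ)) ^ Q.card = ∏ _p ∈ Q, (n : ℝ) ^ (11 / 100 : ℝ) := by
          rw [Finset.prod_const]
      _ ≤ ∏ p ∈ Q, (p : ℝ) := by
          apply Finset.prod_le_prod
          · intro p _
            exact Real.rpow_nonneg hn0 _
          · intro p hp
            exact (hQ p hp).2.1
      _ = ((∏ p ∈ Q, p : ℕ) : ℝ) := by push_cast; rfl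
      _ ≤ ((n ^ 2 : ℕ) : ℝ) := by exact_mod_cast hle
      _ = (n : ℝ) ^ (2 : ℝ) := by
          push_cast
          rw [← Real.rpow_natCast]
          norm_num
  rw [← Real.rpow_natCast, ← Real.rpow_mul hn0, Real.rpow_le_rpow_left_iff hn1] at h7
  linarith

theorem hPSQ : StPSQ := by
  classical
  refine ⟨44, by norm_num, ?_⟩
  intro n hn
  have hn1 : (1 : ℝ) ≤ (n : ℝ) := by
    have : 1 ≤ n := by omega
    exact_mod_cast this
  have hn0 : (0 : ℝ) < (n : ℝ) := by linarith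
  obtain ⟨z, hz⟩ : ∃ z : ℝ, z = (n : ℝ) ^ (11 / 100 : ℝ) := ⟨_, rfl⟩
  obtain ⟨y, hy⟩ : ∃ y : ℝ, y = (n : ℝ) ^ (82 / 100 : ℝ) := ⟨_, rfl⟩
  obtain ⟨x, hx⟩ : ∃ x : ℝ, x = (n : ℝ) ^ (9 / 10 : ℝ) := ⟨_, rfl⟩
  have hz1 : 1 ≤ z := by
    rw [hz]
    exact Real.one_le_rpow hn1 (by norm_num)
  have hz0 : 0 < z := by linarith
  have hy0 : 0 ≤ y := by
    rw [hy]
    positivity
  have hx1 : 1 ≤ x := by
    rw [hx]
    exact Real.one_le_rpow hn1 (by norm_num)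
  have hyx : y ≤ x := by
    rw [hy, hx]
    exact Real.rpow_le_rpow_of_exponent_le hn1 (by norm_num)
  have hnz : (n : ℝ) / z ≤ x := by
    rw [hz, hx]
    have h1 : (n : ℝ) / (n : ℝ) ^ (11 / 100 : ℝ) = (n : ℝ) ^ (1 - 11 / 100 : ℝ) := by
      rw [Real.rpow_sub hn0, Real.rpow_one]
    rw [h1]
    exact Real.rpow_le_rpow_of_exponent_le hn1 (by norm_num)
  obtain ⟨k, hk⟩ : ∃ k : ℕ, k = ⌈z⌉₊ - 1 := ⟨_, rfl⟩
  have hcz : 1 ≤ ⌈z⌉₊ := Nat.one_le_ceil_iff.2 hz0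
  have hk1 : (z : ℝ) ≤ (k : ℝ) + 1 := by
    have h1 : k + 1 = ⌈z⌉₊ := by omega
    have h2 : ((k : ℝ) + 1) = ((⌈z⌉₊ : ℕ) : ℝ) := by
      rw [← h1]
      push_cast
      ring
    rw [h2]
    exact Nat.le_ceil z
  obtain ⟨I, hI⟩ : ∃ I : Finset ℕ, I = Ioo k (⌊y⌋₊ + 1) := ⟨_, rfl⟩
  obtain ⟨P, hP⟩ : ∃ P : Finset ℕ, P = I.filter Nat.Prime := ⟨_, rfl⟩
  have hPz : ∀ p ∈ P, z ≤ (p : ℝ) := by
    intro p hp
    rw [hP, Finset.mem_filter, hI, Finset.mem_Ioo] at hp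
    have h1 : k + 1 ≤ p := hp.1.1
    have h2 : (k : ℝ) + 1 ≤ (p : ℝ) := by exact_mod_cast h1
    linarith
  have hPp : ∀ p ∈ P, p.Prime := by
    intro p hp
    rw [hP, Finset.mem_filter] at hp
    exact hp.2
  have hsub : ((Icc 1 (n / 60)).filter (fun j => ∃ p : ℕ, p.Prime ∧
      (n : ℝ) ^ (11 / 100 : ℝ) ≤ (p : ℝ) ∧ (p : ℝ) ≤ (n : ℝ) ^ (82 / 100 : ℝ) ∧
      p ^ 2 ∣ vk n (30 * j))) ⊆ P.biUnion (Sp n) := by
    intro j hj
    obtain ⟨h1, p, hp, h2, h3, h4⟩ := Finset.mem_filter.1 hj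
    rw [Finset.mem_biUnion]
    refine ⟨p, ?_, Finset.mem_filter.2 ⟨h1, h4⟩⟩
    rw [hP, Finset.mem_filter, hI, Finset.mem_Ioo]
    rw [← hz] at h2
    rw [← hy] at h3
    refine ⟨⟨?_, ?_⟩, hp⟩
    · have h5 : ⌈z⌉₊ ≤ p := Nat.ceil_le.2 h2
      omega
    · exact Nat.lt_succ_of_le (Nat.le_floor h3)
  have hcard : (((Icc 1 (n / 60)).filter (fun j => ∃ p : ℕ, p.Prime ∧
      (n : ℝ) ^ (11 / 100 : ℝ) ≤ (p : ℝ) ∧ (p : ℝ) ≤ (n : ℝ) ^ (82 / 100 : ℝ) ∧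
      p ^ 2 ∣ vk n (30 * j))).card : ℝ) ≤ ∑ p ∈ P, ((Sp n p).card : ℝ) := by
    have h1 := (Finset.card_le_card hsub).trans (Finset.card_biUnion_le (s := P) (t := Sp n))
    exact_mod_cast h1
  have hJn : (((n / 60 : ℕ) : ℕ) : ℝ) ≤ (n : ℝ) := by
    exact_mod_cast Nat.div_le_self n 60
  rw [← Finset.sum_filter_add_sum_filter_not P (fun p => (p : ℤ) ∣ (n : ℤ) ^ 2 - 4)] at hcard
  have hS1 : ∑ p ∈ P.filter (fun p : ℕ => (p : ℤ) ∣ (n : ℤ) ^ 2 - 4), ((Sp n p).card : ℝ) ≤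
      38 * x := by
    have h1 : ∀ p ∈ P.filter (fun p : ℕ => (p : ℤ) ∣ (n : ℤ) ^ 2 - 4),
        ((Sp n p).card : ℝ) ≤ 2 * x := by
      intro p hp
      obtain ⟨hp1, hp2⟩ := Finset.mem_filter.1 hp
      have h2 : ((Sp n p).card : ℝ) ≤ ((n / 60 / p + 1 : ℕ) : ℝ) := by
        exact_mod_cast card_two (hPp p hp1) hp2
      have h3 : (((n / 60 / p : ℕ)) : ℝ) ≤ (n : ℝ) / z := by
        calc (((n / 60 / p : ℕ)) : ℝ) ≤ ((n / 60 : ℕ) : ℝ) / (p : ℝ) := Nat.cast_div_le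
          _ ≤ (n : ℝ) / z := div_le_div₀ hn0.le hJn hz0 (hPz p hp1)
      push_cast at h2
      linarith
    have h4 := Finset.sum_le_sum h1
    rw [Finset.sum_const, nsmul_eq_mul] at h4
    have h5 : ((P.filter (fun p : ℕ => (p : ℤ) ∣ (n : ℤ) ^ 2 - 4)).card : ℝ) ≤ 19 := by
      apply few hn
      intro p hp
      obtain ⟨hp1, hp2⟩ := Finset.mem_filter.1 hp
      exact ⟨hPp p hp1, by rw [← hz]; exact hPz p hp1, hp2⟩
    calc _ ≤ _ := h4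
      _ ≤ 19 * (2 * x) := mul_le_mul_of_nonneg_right h5 (by linarith)
      _ = 38 * x := by ring
  have hS2 : ∑ p ∈ P.filter (fun p : ℕ => ¬ (p : ℤ) ∣ (n : ℤ) ^ 2 - 4), ((Sp n p).card : ℝ) ≤
      6 * x := by
    have h1 : ∀ p ∈ P.filter (fun p : ℕ => ¬ (p : ℤ) ∣ (n : ℤ) ^ 2 - 4),
        ((Sp n p).card : ℝ) ≤ 2 * (n : ℝ) * ((p : ℝ) ^ 2)⁻¹ + 2 := by
      intro p hp
      obtain ⟨hp1, hp2⟩ := Finset.mem_filter.1 hp
      have h2 : ((Sp n p).card : ℝ) ≤ ((2 * (n / 60 / p ^ 2 + 1) : ℕ) : ℝ) := by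
        exact_mod_cast card_one (hPp p hp1) hp2
      have hpp : (0 : ℝ) < (p : ℝ) ^ 2 := by
        have := (hPp p hp1).pos
        positivity
      have h3 : (((n / 60 / p ^ 2 : ℕ)) : ℝ) ≤ (n : ℝ) * ((p : ℝ) ^ 2)⁻¹ := by
        calc (((n / 60 / p ^ 2 : ℕ)) : ℝ) ≤ ((n / 60 : ℕ) : ℝ) / ((p ^ 2 : ℕ) : ℝ) :=
              Nat.cast_div_le
          _ = ((n / 60 : ℕ) : ℝ) * ((p : ℝ) ^ 2)⁻¹ := by
              rw [div_eq_mul_inv]
              push_cast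
              rfl
          _ ≤ (n : ℝ) * ((p : ℝ) ^ 2)⁻¹ := mul_le_mul_of_nonneg_right hJn (inv_nonneg.2 hpp.le)
      push_cast at h2
      linarith
    have h4 := Finset.sum_le_sum h1
    have h5 : ∑ p ∈ P.filter (fun p : ℕ => ¬ (p : ℤ) ∣ (n : ℤ) ^ 2 - 4),
        (2 * (n : ℝ) * ((p : ℝ) ^ 2)⁻¹ + 2) ≤ ∑ p ∈ I, (2 * (n : ℝ) * ((p : ℝ) ^ 2)⁻¹ + 2) := by
      apply Finset.sum_le_sum_of_subset_of_nonneg
      · intro p hp
        have hp1 := (Finset.mem_filter.1 hp).1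
        rw [hP] at hp1
        exact (Finset.mem_filter.1 hp1).1
      · intro p _ _
        positivity
    have h6 : ∑ p ∈ I, (2 * (n : ℝ) * ((p : ℝ) ^ 2)⁻¹ + 2) =
        2 * (n : ℝ) * ∑ p ∈ I, ((p : ℝ) ^ 2)⁻¹ + 2 * (I.card : ℝ) := by
      rw [Finset.sum_add_distrib, ← Finset.mul_sum, Finset.sum_const, nsmul_eq_mul]
      ring
    have h7 : ∑ p ∈ I, ((p : ℝ) ^ 2)⁻¹ ≤ 2 / z := by
      rw [hI]
      refine (sum_Ioo_inv_sq_le k (⌊y⌋₊ + 1)).trans ?_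
      exact div_le_div_of_nonneg_left (by norm_num) hz0 hk1
    have h8 : (I.card : ℝ) ≤ y := by
      rw [hI, Nat.card_Ioo]
      have h9 : ⌊y⌋₊ + 1 - k - 1 ≤ ⌊y⌋₊ := by omega
      have h10 : ((⌊y⌋₊ + 1 - k - 1 : ℕ) : ℝ) ≤ ((⌊y⌋₊ : ℕ) : ℝ) := by exact_mod_cast h9
      exact h10.trans (Nat.floor_le hy0)
    have h11 : 2 * (n : ℝ) * ∑ p ∈ I, ((p : ℝ) ^ 2)⁻¹ ≤ 4 * x := by
      calc 2 * (n : ℝ) * ∑ p ∈ I, ((p : ℝ) ^ 2)⁻¹ ≤ 2 * (n : ℝ) * (2 / z) :=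
            mul_le_mul_of_nonneg_left h7 (by positivity)
        _ = 4 * ((n : ℝ) / z) := by ring
        _ ≤ 4 * x := by linarith
    linarith
  rw [← hx]
  linarith

end Pool.Agent.Helper9.KS
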